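import Mathlib

/-!
# Monomial space versus degree in polynomial calculus

Negative answer to the question whether every semantic refutation of an unsatisfiable set of
polynomials has monomial space at least a constant times `D - d`.  The witnesses are the
single linear polynomials `1 + x_1 + ... + x_n` over the rationals.
-/

namespace Pool.Agent.Results.MP_a6f615_lc.MonomialSpaceDegree

open MvPolynomial

section Defs

variable {F V : Type} [Field F]

/-- The Boolean ideal: it is generated by the polynomials `x ^ 2 - x`. -/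
noncomputable def boolIdeal (F V : Type) [Field F] : Ideal (MvPolynomial V F) :=
  Ideal.span (Set.range fun v : V => (X v ^ 2 - X v : MvPolynomial V F))

/-- `P` is unsatisfiable: no zero-one assignment is a common zero of `P`. -/
def Unsat (P : Finset (MvPolynomial V F)) : Prop :=
  ∀ a : V → F, (∀ v, a v = 0 ∨ a v = 1) → ∃ p ∈ P, eval a p ≠ 0

/-- The number of distinct monomials occurring in the polynomials of `S`. -/
noncomputable def MSp (S : Finset (MvPolynomial V F)) : ℕ :=
  Set.ncard {m : V →₀ ℕ | ∃ p ∈ S, coeff m p ≠ 0}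

/-- `M 0, ..., M ℓ` is a semantic refutation of `P`. -/
def IsSemanticRefutation (P : Finset (MvPolynomial V F)) (ℓ : ℕ)
    (M : ℕ → Finset (MvPolynomial V F)) : Prop :=
  M 0 = ∅ ∧ 1 ∈ M ℓ ∧
    ∀ i < ℓ, ∃ p ∈ P, ∀ q ∈ M (i + 1),
      q ∈ Ideal.span (M i : Set (MvPolynomial V F)) ⊔ boolIdeal F V ⊔ Ideal.span {p}

/-- The monomial space of `M 0, ..., M ℓ`. -/
noncomputable def space (ℓ : ℕ) (M : ℕ → Finset (MvPolynomial V F)) : ℕ :=
  (Finset.range (ℓ + 1)).sup fun i => MSp (M i)

/-- The line `q` is justified in the polynomial calculus by `P` and the earlier lines. -/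
def Justified (P : Finset (MvPolynomial V F)) (earlier : List (MvPolynomial V F))
    (q : MvPolynomial V F) : Prop :=
  q ∈ P ∨ (∃ v, q = X v ^ 2 - X v) ∨
    (∃ a b : F, ∃ r ∈ earlier, ∃ s ∈ earlier, q = C a * r + C b * s) ∨
    (∃ v, ∃ r ∈ earlier, q = X v * r)

/-- `L` is a polynomial calculus refutation of `P`. -/
def IsPCRefutation (P : Finset (MvPolynomial V F)) (L : List (MvPolynomial V F)) : Prop :=
  L.getLast? = some 1 ∧ ∀ (i : ℕ) (h : i < L.length), Justified P (L.take i) L[i]

/-- The maximum degree of a line. -/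
noncomputable def proofDegree (L : List (MvPolynomial V F)) : ℕ :=
  (L.map totalDegree).foldr max 0

/-- `D` is the minimum degree of a polynomial calculus refutation of `P`. -/
def IsMinDegree (P : Finset (MvPolynomial V F)) (D : ℕ) : Prop :=
  (∃ L, IsPCRefutation P L ∧ proofDegree L = D) ∧
    ∀ L, IsPCRefutation P L → D ≤ proofDegree L

end Defs

/-! ### Completeness of the polynomial calculus -/

section Complete

variable {F V : Type} [Field F]

/-- valid derivations -/
def Valid (P : Finset (MvPolynomial V F)) (L : List (MvPolynomial V F)) : Prop :=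
  ∀ (i : ℕ) (h : i < L.length), Justified P (L.take i) L[i]

theorem Justified.mono {P : Finset (MvPolynomial V F)} {L L' : List (MvPolynomial V F)}
    {q : MvPolynomial V F} (h : Justified P L q) (hL : ∀ x ∈ L, x ∈ L') :
    Justified P L' q := by
  rcases h with h | h | ⟨a, b, r, hr, s, hs, h⟩ | ⟨v, r, hr, h⟩
  · exact Or.inl h
  · exact Or.inr (Or.inl h)
  · exact Or.inr (Or.inr (Or.inl ⟨a, b, r, hL r hr, s, hL s hs, h⟩))
  · exact Or.inr (Or.inr (Or.inr ⟨v, r, hL r hr, h⟩))

theorem Valid.append {P : Finset (MvPolynomial V F)} {L L' : List (MvPolynomial V F)}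
    (h : Valid P L) (h' : Valid P L') : Valid P (L ++ L') := by
  intro i hi
  by_cases hiL : i < L.length
  · rw [List.getElem_append_left hiL]
    refine (h i hiL).mono ?_
    intro x hx
    rw [List.take_append_of_le_length hiL.le]
    exact hx
  · have hle : L.length ≤ i := not_lt.1 hiL
    have hi' : i - L.length < L'.length := by
      rw [List.length_append] at hi; omega
    rw [List.getElem_append_right hle]
    refine (h' _ hi').mono ?_
    intro x hx
    rw [List.take_append]
    exact List.mem_append_right _ hx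

theorem Valid.snoc {P : Finset (MvPolynomial V F)} {L : List (MvPolynomial V F)}
    {q : MvPolynomial V F} (h : Valid P L) (hq : Justified P L q) : Valid P (L ++ [q]) := by
  intro i hi
  by_cases hiL : i < L.length
  · rw [List.getElem_append_left hiL]
    refine (h i hiL).mono ?_
    intro x hx
    rw [List.take_append_of_le_length hiL.le]
    exact hx
  · have hle : L.length ≤ i := not_lt.1 hiL
    have hi' : i = L.length := by
      rw [List.length_append, List.length_singleton] at hi; omega
    subst hi'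
    rw [List.getElem_append_right le_rfl]
    simp only [Nat.sub_self, List.getElem_singleton, List.take_left']
    simpa using hq

/-- Derivable polynomials. -/
def Der (P : Finset (MvPolynomial V F)) (q : MvPolynomial V F) : Prop :=
  ∃ L, Valid P L ∧ q ∈ L

theorem Der.lin {P : Finset (MvPolynomial V F)} {q r : MvPolynomial V F} (hq : Der P q)
    (hr : Der P r) (a b : F) : Der P (C a * q + C b * r) := by
  obtain ⟨L, hL, hqL⟩ := hq
  obtain ⟨L', hL', hrL⟩ := hr
  refine ⟨(L ++ L') ++ [C a * q + C b * r], (hL.append hL').snoc ?_, by simp⟩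
  exact Or.inr (Or.inr (Or.inl ⟨a, b, q, by simp [hqL], r, by simp [hrL], rfl⟩))

theorem Der.mulX {P : Finset (MvPolynomial V F)} {q : MvPolynomial V F} (hq : Der P q)
    (v : V) : Der P (X v * q) := by
  obtain ⟨L, hL, hqL⟩ := hq
  refine ⟨L ++ [X v * q], hL.snoc ?_, by simp⟩
  exact Or.inr (Or.inr (Or.inr ⟨v, q, hqL, rfl⟩))

theorem Der.add {P : Finset (MvPolynomial V F)} {q r : MvPolynomial V F} (hq : Der P q)
    (hr : Der P r) : Der P (q + r) := by
  have := hq.lin hr 1 1
  simpa using this

theorem Der.mul {P : Finset (MvPolynomial V F)} {q : MvPolynomial V F} (hq : Der P q)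
    (g : MvPolynomial V F) : Der P (g * q) := by
  induction g using MvPolynomial.induction_on with
  | C a =>
    have := hq.lin hq a 0
    simpa using this
  | add g h hg hh =>
    rw [add_mul]
    exact hg.add hh
  | mul_X g v hg =>
    have := hg.mulX v
    have e : X v * (g * q) = g * X v * q := by ring
    rwa [e] at this

theorem der_of_mem {P : Finset (MvPolynomial V F)} {p : MvPolynomial V F} (hp : p ∈ P) :
    Der P p := by
  refine ⟨[p], ?_, by simp⟩
  intro i hi
  have : i = 0 := by simpa using hi
  subst this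
  exact Or.inl hp

theorem der_bool {P : Finset (MvPolynomial V F)} (v : V) :
    Der P (X v ^ 2 - X v : MvPolynomial V F) := by
  refine ⟨[X v ^ 2 - X v], ?_, by simp⟩
  intro i hi
  have : i = 0 := by simpa using hi
  subst this
  exact Or.inr (Or.inl ⟨v, rfl⟩)

theorem der_of_mem_ideal {P : Finset (MvPolynomial V F)} {p q : MvPolynomial V F}
    (hp : p ∈ P) (hq : q ∈ boolIdeal F V ⊔ Ideal.span {p}) : Der P q := by
  have h0 : Der P (0 : MvPolynomial V F) := by
    have := (der_of_mem hp).mul 0
    simpa using this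
  rw [boolIdeal, ← Ideal.span_union] at hq
  refine Submodule.span_induction (p := fun x _ => Der P x) ?_ h0
    (fun x y _ _ hx hy => hx.add hy) (fun a x _ hx => ?_) hq
  · rintro x (⟨v, rfl⟩ | hx)
    · exact der_bool v
    · rw [Set.mem_singleton_iff] at hx
      subst hx
      exact der_of_mem hp
  · rw [smul_eq_mul]
    exact hx.mul a

theorem exists_refutation {P : Finset (MvPolynomial V F)} (h : Der P 1) :
    ∃ L, IsPCRefutation P L := by
  obtain ⟨L, hL, h1⟩ := h
  refine ⟨L ++ [1], by simp, hL.snoc ?_⟩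
  exact Or.inr (Or.inr (Or.inl ⟨1, 0, 1, h1, 1, h1, by simp⟩))

theorem exists_minDegree {P : Finset (MvPolynomial V F)} (h : Der P 1) :
    ∃ D, IsMinDegree P D := by
  classical
  obtain ⟨L, hL⟩ := exists_refutation h
  have hex : ∃ m, ∃ L, IsPCRefutation P L ∧ proofDegree L = m := ⟨_, L, hL, rfl⟩
  refine ⟨Nat.find hex, Nat.find_spec hex, ?_⟩
  intro L' hL'
  exact Nat.find_min' hex ⟨L', hL', rfl⟩

theorem le_proofDegree {L : List (MvPolynomial V F)} {q : MvPolynomial V F} (h : q ∈ L) :
    q.totalDegree ≤ proofDegree L := by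
  induction L with
  | nil => simp at h
  | cons a L ih =>
    simp only [proofDegree, List.map_cons, List.foldr_cons]
    rcases List.mem_cons.1 h with rfl | h
    · exact le_max_left _ _
    · exact le_trans (ih h) (le_max_right _ _)

end Complete

/-! ### Functions on subsets -/

section Sub

variable {n : ℕ}

/-- multiplication by the `i`-th variable on coefficient functions of multilinear forms -/
def Xop (i : Fin n) (f : Finset (Fin n) → ℚ) : Finset (Fin n) → ℚ := fun A =>
  if i ∈ A then f A + f (A.erase i) else 0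

/-- multiplication by `1 + ∑ x_i` -/
def Pop (f : Finset (Fin n) → ℚ) : Finset (Fin n) → ℚ := fun A =>
  f A + ∑ i, Xop i f A

theorem Xop_comm (i j : Fin n) (f : Finset (Fin n) → ℚ) :
    Xop i (Xop j f) = Xop j (Xop i f) := by
  funext A
  unfold Xop
  by_cases hij : i = j
  · subst hij; rfl
  · by_cases hi : i ∈ A <;> by_cases hj : j ∈ A <;>
      simp [hi, hj, Finset.mem_erase, hij, Ne.symm hij]
    rw [Finset.erase_right_comm]
    ring

theorem Xop_idem (i : Fin n) (f : Finset (Fin n) → ℚ) : Xop i (Xop i f) = Xop i f := by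
  funext A
  unfold Xop
  by_cases hi : i ∈ A <;> simp [hi]

theorem Xop_add (i : Fin n) (f g : Finset (Fin n) → ℚ) :
    Xop i (f + g) = Xop i f + Xop i g := by
  funext A
  simp only [Xop, Pi.add_apply]
  split_ifs <;> ring

theorem Xop_smul (i : Fin n) (a : ℚ) (f : Finset (Fin n) → ℚ) :
    Xop i (a • f) = a • Xop i f := by
  funext A
  simp only [Xop, Pi.smul_apply, smul_eq_mul]
  split_ifs <;> ring

theorem Xop_sum {ι : Type*} (s : Finset ι) (i : Fin n) (f : ι → Finset (Fin n) → ℚ) :
    Xop i (∑ k ∈ s, f k) = ∑ k ∈ s, Xop i (f k) := by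
  funext A
  simp only [Xop, Finset.sum_apply]
  split_ifs <;> simp [Finset.sum_add_distrib]

theorem Pop_eq (f : Finset (Fin n) → ℚ) : Pop f = f + ∑ i, Xop i f := by
  funext A
  simp [Pop]

theorem Pop_Xop (i : Fin n) (f : Finset (Fin n) → ℚ) : Pop (Xop i f) = Xop i (Pop f) := by
  rw [Pop_eq, Pop_eq, Xop_add, Xop_sum]
  congr 1
  exact Finset.sum_congr rfl fun j _ => Xop_comm j i f

theorem Pop_lin (a b : ℚ) (f g : Finset (Fin n) → ℚ) :
    Pop (a • f + b • g) = a • Pop f + b • Pop g := by
  rw [Pop_eq, Pop_eq, Pop_eq]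
  simp only [Xop_add, Xop_smul, Finset.sum_add_distrib, smul_add, Finset.smul_sum]
  abel

/-- up part -/
def uu (i : Fin n) (f : Finset (Fin n) → ℚ) : Finset (Fin n) → ℚ := fun A =>
  if i ∈ A then f (A.erase i) else 0

/-- down part -/
def dd (i : Fin n) (f : Finset (Fin n) → ℚ) : Finset (Fin n) → ℚ := fun A =>
  if i ∈ A then 0 else f (insert i A)

/-- toggling -/
def tog (S : Finset (Fin n)) : Finset (Fin n) ≃ Finset (Fin n) where
  toFun B := symmDiff B S
  invFun B := symmDiff B S
  left_inv B := by simp
  right_inv B := by simp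

theorem pair_ne {i j : Fin n} (hij : i ≠ j) (f : Finset (Fin n) → ℚ) :
    ∑ B : Finset (Fin n), uu i f B * uu j f B = ∑ B, dd j f B * dd i f B := by
  refine Fintype.sum_equiv (tog {i, j}) _ _ ?_
  intro B
  have hmi : i ∈ (tog {i, j}) B ↔ i ∉ B := by
    simp [tog, Finset.mem_symmDiff]
  have hmj : j ∈ (tog {i, j}) B ↔ j ∉ B := by
    simp [tog, Finset.mem_symmDiff]
  unfold uu dd
  by_cases hi : i ∈ B
  · by_cases hj : j ∈ B
    · have e1 : insert j ((tog {i, j}) B) = B.erase i := by
        ext x
        by_cases hxi : x = i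
        · subst hxi; simp [hi, hij, tog, Finset.mem_symmDiff]
        · by_cases hxj : x = j
          · subst hxj; simp [hj, hxi]
          · simp [tog, Finset.mem_symmDiff, hxi, hxj]
      have e2 : insert i ((tog {i, j}) B) = B.erase j := by
        ext x
        by_cases hxi : x = i
        · subst hxi; simp [hi, hij]
        · by_cases hxj : x = j
          · subst hxj; simp [hj, hxi, tog, Finset.mem_symmDiff]
          · simp [tog, Finset.mem_symmDiff, hxi, hxj]
      simp only [hmi, hmj, hi, hj, e1, e2, not_true, if_true, if_false]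
    · simp [hmi, hmj, hi, hj]
  · simp [hmi, hmj, hi]

theorem pair_eq (i : Fin n) (f : Finset (Fin n) → ℚ) :
    ∑ B : Finset (Fin n), uu i f B * uu i f B =
      ∑ B, (if i ∈ B then 0 else f B * f B) := by
  refine Fintype.sum_equiv (tog {i}) _ _ ?_
  intro B
  have hmi : i ∈ (tog {i}) B ↔ i ∉ B := by
    simp [tog, Finset.mem_symmDiff]
  unfold uu
  by_cases hi : i ∈ B
  · have e1 : (tog {i}) B = B.erase i := by
      ext x
      by_cases hxi : x = i
      · subst hxi; simp [hi, tog, Finset.mem_symmDiff]
      · simp [tog, Finset.mem_symmDiff, hxi]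
    have h2 : i ∉ B.erase i := Finset.notMem_erase i B
    simp only [hi, if_true, if_false, e1, h2]
  · simp [hmi, hi]

theorem pair_eq' (i : Fin n) (f : Finset (Fin n) → ℚ) :
    ∑ B : Finset (Fin n), dd i f B * dd i f B =
      ∑ B, (if i ∈ B then f B * f B else 0) := by
  refine Fintype.sum_equiv (tog {i}) _ _ ?_
  intro B
  have hmi : i ∈ (tog {i}) B ↔ i ∉ B := by
    simp [tog, Finset.mem_symmDiff]
  unfold dd
  by_cases hi : i ∈ B
  · simp [hmi, hi]
  · have e1 : (tog {i}) B = insert i B := by
      ext x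
      by_cases hxi : x = i
      · subst hxi; simp [hi, tog, Finset.mem_symmDiff]
      · simp [tog, Finset.mem_symmDiff, hxi]
    have h2 : i ∈ insert i B := Finset.mem_insert_self i B
    simp only [hi, if_true, if_false, e1, h2]

theorem square_sum (g : Fin n → Finset (Fin n) → ℚ) :
    ∑ B : Finset (Fin n), (∑ i, g i B) * (∑ i, g i B) =
      ∑ i, ∑ j, ∑ B : Finset (Fin n), g i B * g j B := by
  simp only [Finset.sum_mul_sum]
  rw [Finset.sum_comm]
  refine Finset.sum_congr rfl fun i _ => ?_
  rw [Finset.sum_comm]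

/-- The commutation identity of the up and down operators, as sums of squares. -/
theorem key_identity (f : Finset (Fin n) → ℚ) :
    ∑ B : Finset (Fin n), (∑ i, uu i f B) * (∑ i, uu i f B) =
      ∑ B : Finset (Fin n), (∑ i, dd i f B) * (∑ i, dd i f B) +
        ∑ B : Finset (Fin n), ((n : ℚ) - 2 * (B.card : ℚ)) * (f B * f B) := by
  rw [square_sum, square_sum]
  have h1 : ∀ i j : Fin n, ∑ B : Finset (Fin n), uu i f B * uu j f B =
      ∑ B : Finset (Fin n), dd i f B * dd j f B +
        (if i = j then ∑ B : Finset (Fin n),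
          ((if i ∈ B then 0 else f B * f B) - (if i ∈ B then f B * f B else 0)) else 0) := by
    intro i j
    by_cases hij : i = j
    · subst hij
      rw [if_pos rfl, pair_eq, pair_eq', Finset.sum_sub_distrib]
      ring
    · rw [if_neg hij, add_zero, pair_ne hij]
      exact Finset.sum_congr rfl fun B _ => mul_comm _ _
  simp only [h1, Finset.sum_add_distrib]
  congr 1
  simp only [Finset.sum_ite_eq, Finset.mem_univ, if_true]
  rw [Finset.sum_comm]
  refine Finset.sum_congr rfl fun B _ => ?_
  rw [Finset.sum_sub_distrib]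
  have e1 : ∑ i : Fin n, (if i ∈ B then (0 : ℚ) else f B * f B) =
      ((n : ℚ) - B.card) * (f B * f B) := by
    have : ∀ i : Fin n, (if i ∈ B then (0 : ℚ) else f B * f B) =
        f B * f B - (if i ∈ B then f B * f B else 0) := by
      intro i; split_ifs <;> ring
    simp only [this, Finset.sum_sub_distrib, Finset.sum_const, Finset.card_univ,
      Fintype.card_fin, Finset.sum_ite_mem, Finset.univ_inter, nsmul_eq_mul]
    ring
  have e2 : ∑ i : Fin n, (if i ∈ B then f B * f B else 0) = (B.card : ℚ) * (f B * f B) := by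
    simp only [Finset.sum_ite_mem, Finset.univ_inter, Finset.sum_const, nsmul_eq_mul]
  rw [e1, e2]
  ring

/-- Injectivity of the up operator below the middle. -/
theorem up_injective {k : ℕ} (hk : 2 * k < n) (c : Finset (Fin n) → ℚ)
    (h : ∀ B : Finset (Fin n), B.card = k + 1 → ∑ i ∈ B, c (B.erase i) = 0)
    (A : Finset (Fin n)) (hA : A.card = k) : c A = 0 := by
  classical
  set f : Finset (Fin n) → ℚ := fun B => if B.card = k then c B else 0 with hf
  have hU : ∀ B : Finset (Fin n), ∑ i, uu i f B = 0 := by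
    intro B
    have e : ∑ i, uu i f B = ∑ i ∈ B, f (B.erase i) := by
      unfold uu
      simp only [Finset.sum_ite_mem, Finset.univ_inter]
    rw [e]
    by_cases hB : B.card = k + 1
    · rw [← h B hB]
      refine Finset.sum_congr rfl fun i hi => ?_
      rw [hf]
      simp only
      rw [if_pos]
      rw [Finset.card_erase_of_mem hi, hB]; rfl
    · refine Finset.sum_eq_zero fun i hi => ?_
      rw [hf]
      simp only
      rw [if_neg]
      rw [Finset.card_erase_of_mem hi]
      have : 0 < B.card := Finset.card_pos.2 ⟨i, hi⟩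
      omega
  have hid := key_identity f
  simp only [hU, mul_zero, Finset.sum_const_zero] at hid
  have h1 : 0 ≤ ∑ B : Finset (Fin n), (∑ i, dd i f B) * (∑ i, dd i f B) :=
    Finset.sum_nonneg fun B _ => mul_self_nonneg _
  have h2 : ∀ B : Finset (Fin n), 0 ≤ ((n : ℚ) - 2 * (B.card : ℚ)) * (f B * f B) := by
    intro B
    by_cases hB : B.card = k
    · refine mul_nonneg ?_ (mul_self_nonneg _)
      rw [hB]
      have : ((2 * k : ℕ) : ℚ) < (n : ℚ) := by exact_mod_cast hk
      push_cast at this
      linarith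
    · have : f B = 0 := by rw [hf]; simp [hB]
      rw [this]; simp
  have h3 : ∑ B : Finset (Fin n), ((n : ℚ) - 2 * (B.card : ℚ)) * (f B * f B) = 0 := by
    have := Finset.sum_nonneg (s := (Finset.univ : Finset (Finset (Fin n)))) fun B _ => h2 B
    linarith
  have h4 := (Finset.sum_eq_zero_iff_of_nonneg fun B _ => h2 B).1 h3 A (Finset.mem_univ _)
  have h5 : f A = c A := by rw [hf]; simp [hA]
  rw [h5, hA] at h4
  have h6 : (n : ℚ) - 2 * (k : ℚ) ≠ 0 := by
    have : ((2 * k : ℕ) : ℚ) < (n : ℚ) := by exact_mod_cast hk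
    push_cast at this
    intro h; linarith
  rcases mul_eq_zero.1 h4 with h7 | h7
  · exact absurd h7 h6
  · exact mul_self_eq_zero.1 h7

theorem Pop_top {k : ℕ} {f : Finset (Fin n) → ℚ} (hf : ∀ A, k < A.card → f A = 0)
    (B : Finset (Fin n)) (hB : B.card = k + 1) :
    Pop f B = ∑ i ∈ B, f (B.erase i) := by
  have hB0 : f B = 0 := hf B (by omega)
  unfold Pop Xop
  rw [hB0]
  simp only [zero_add, Finset.sum_ite_mem, Finset.univ_inter]

/-- Multiplication by `1 + ∑ x_i` raises the degree, below the middle. -/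
theorem key_lemma {k : ℕ} (hk : 2 * k < n) {f : Finset (Fin n) → ℚ}
    (hf : ∀ A, k < A.card → f A = 0) (hP : ∀ A, k < A.card → Pop f A = 0) :
    ∀ A, k ≤ A.card → f A = 0 := by
  intro A hA
  rcases hA.lt_or_eq with h | h
  · exact hf A h
  · refine up_injective hk f ?_ A h.symm
    intro B hB
    rw [← Pop_top hf B hB]
    exact hP B (by omega)

theorem not_one {D : ℕ} (hD : 2 * D < n + 2) {f : Finset (Fin n) → ℚ}
    (hf : ∀ A, D ≤ A.card → f A = 0) : Pop f ≠ (Pi.single ∅ 1 : Finset (Fin n) → ℚ) := by
  induction D with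
  | zero =>
    intro h
    have h0 : f = 0 := by funext A; exact hf A (Nat.zero_le _)
    have := congrFun h ∅
    rw [h0] at this
    simp [Pop, Xop] at this
  | succ k ih =>
    intro h
    refine ih (by omega) ?_ h
    refine key_lemma (by omega) (fun A hA => hf A hA) ?_
    intro A hA
    rw [h]
    have : A ≠ ∅ := by
      rintro rfl
      simp at hA
    simp [this]

end Sub

/-! ### The multilinear reduction -/

section Red

variable {n : ℕ}

/-- multilinear coefficients -/
noncomputable def lam : MvPolynomial (Fin n) ℚ →ₗ[ℚ] (Finset (Fin n) → ℚ) :=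
  (basisMonomials (Fin n) ℚ).constr ℚ fun m => (Pi.single m.support (1 : ℚ))

theorem lam_monomial (m : Fin n →₀ ℕ) (c : ℚ) :
    lam (monomial m c) = c • (Pi.single m.support (1 : ℚ) : Finset (Fin n) → ℚ) := by
  have h : (monomial m c : MvPolynomial (Fin n) ℚ) = c • (basisMonomials (Fin n) ℚ) m := by
    rw [coe_basisMonomials, smul_monomial, smul_eq_mul, mul_one]
  rw [h, map_smul, lam, Module.Basis.constr_basis]

theorem lam_one : lam (1 : MvPolynomial (Fin n) ℚ) = (Pi.single ∅ 1 : Finset (Fin n) → ℚ) := by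
  have h : (1 : MvPolynomial (Fin n) ℚ) = monomial 0 1 := rfl
  rw [h, lam_monomial]
  simp

theorem lam_X_mul (i : Fin n) (q : MvPolynomial (Fin n) ℚ) :
    lam (X i * q) = Xop i (lam q) := by
  induction q using MvPolynomial.induction_on' with
  | monomial m c =>
    have h : (X i * monomial m c : MvPolynomial (Fin n) ℚ) =
        monomial (Finsupp.single i 1 + m) c := by
      rw [X, monomial_mul, one_mul]
    rw [h, lam_monomial, lam_monomial, Xop_smul]
    congr 1
    have hs : (Finsupp.single i 1 + m).support = insert i m.support := by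
      ext x
      by_cases hx : x = i
      · subst hx; simp
      · simp [hx]
    rw [hs]
    funext A
    unfold Xop
    by_cases hA : i ∈ A
    · rw [if_pos hA]
      by_cases hm : i ∈ m.support
      · have h1 : insert i m.support = m.support := Finset.insert_eq_of_mem hm
        have h2 : A.erase i ≠ m.support := by
          intro h
          rw [← h] at hm
          simp at hm
        rw [h1, Pi.single_eq_of_ne h2, add_zero]
      · have h1 : A ≠ m.support := by
          rintro rfl
          exact hm hA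
        rw [Pi.single_eq_of_ne h1, zero_add]
        by_cases h3 : A.erase i = m.support
        · have h4 : A = insert i m.support := by
            rw [← h3, Finset.insert_erase hA]
          rw [h3, h4, Pi.single_eq_same, Pi.single_eq_same]
        · have h4 : A ≠ insert i m.support := by
            rintro rfl
            apply h3
            rw [Finset.erase_insert hm]
          rw [Pi.single_eq_of_ne h3, Pi.single_eq_of_ne h4]
    · rw [if_neg hA]
      have h1 : A ≠ insert i m.support := by
        rintro rfl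
        simp at hA
      rw [Pi.single_eq_of_ne h1]
  | add p q hp hq =>
    rw [mul_add, map_add, map_add, hp, hq, Xop_add]

theorem lam_eq_zero {q : MvPolynomial (Fin n) ℚ} {A : Finset (Fin n)}
    (h : q.totalDegree < A.card) : lam q A = 0 := by
  have h1 : lam q = ∑ m ∈ q.support,
      coeff m q • (Pi.single m.support (1 : ℚ) : Finset (Fin n) → ℚ) := by
    conv_lhs => rw [q.as_sum]
    rw [map_sum]
    exact Finset.sum_congr rfl fun m _ => lam_monomial m _
  rw [h1, Finset.sum_apply]
  refine Finset.sum_eq_zero fun m hm => ?_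
  have h2 : m.support.card ≤ q.totalDegree := by
    refine le_trans ?_ (le_totalDegree hm)
    rw [Finsupp.sum, Finset.card_eq_sum_ones]
    refine Finset.sum_le_sum fun i hi => ?_
    have := Finsupp.mem_support_iff.1 hi
    omega
  have h3 : A ≠ m.support := by
    rintro rfl
    omega
  rw [Pi.smul_apply, Pi.single_eq_of_ne h3, smul_zero]

/-- the witness -/
noncomputable def knap (n : ℕ) : MvPolynomial (Fin n) ℚ := 1 + ∑ i, X i

theorem lam_knap : lam (knap n) = Pop (Pi.single ∅ 1 : Finset (Fin n) → ℚ) := by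
  rw [knap, map_add, map_sum, Pop_eq, lam_one]
  congr 1
  refine Finset.sum_congr rfl fun i _ => ?_
  have := lam_X_mul i (1 : MvPolynomial (Fin n) ℚ)
  rw [mul_one] at this
  rw [this, lam_one]

theorem lam_bool (v : Fin n) : lam (X v ^ 2 - X v : MvPolynomial (Fin n) ℚ) = 0 := by
  have h1 : (X v ^ 2 - X v : MvPolynomial (Fin n) ℚ) = X v * (X v * 1) - X v * 1 := by ring
  rw [h1, map_sub, lam_X_mul, lam_X_mul, Xop_idem, sub_self]

/-- the invariant -/
def Inv (n D : ℕ) (q : MvPolynomial (Fin n) ℚ) : Prop :=
  ∃ f : Finset (Fin n) → ℚ, (∀ A, D ≤ A.card → f A = 0) ∧ lam q = Pop f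

theorem inv_of_justified {D : ℕ} (hD : 2 * D < n + 2)
    {earlier : List (MvPolynomial (Fin n) ℚ)} {q : MvPolynomial (Fin n) ℚ}
    (hdeg : q.totalDegree ≤ D) (hE : ∀ r ∈ earlier, Inv n D r)
    (hK : (knap n).totalDegree = 1)
    (h : Justified {knap n} earlier q) : Inv n D q := by
  rcases h with h | ⟨v, rfl⟩ | ⟨a, b, r, hr, s, hs, rfl⟩ | ⟨v, r, hr, rfl⟩
  · rw [Finset.mem_singleton] at h
    subst h
    refine ⟨Pi.single ∅ 1, ?_, lam_knap⟩
    intro A hA
    have : A ≠ ∅ := by
      rintro rfl
      simp only [Finset.card_empty] at hA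
      omega
    simp [this]
  · refine ⟨0, fun A _ => rfl, ?_⟩
    rw [lam_bool]
    funext A
    simp [Pop, Xop]
  · obtain ⟨f, hf, hf'⟩ := hE r hr
    obtain ⟨g, hg, hg'⟩ := hE s hs
    refine ⟨a • f + b • g, ?_, ?_⟩
    · intro A hA
      simp [hf A hA, hg A hA]
    · rw [Pop_lin, ← hf', ← hg', map_add, ← smul_eq_C_mul, ← smul_eq_C_mul, map_smul,
        map_smul]
  · by_cases hr0 : r = 0
    · subst hr0
      refine ⟨0, fun A _ => rfl, ?_⟩
      rw [mul_zero, map_zero]
      funext A
      simp [Pop, Xop]
    · obtain ⟨f, hf, hf'⟩ := hE r hr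
      have hdr : (X v * r).totalDegree = 1 + r.totalDegree := by
        rw [totalDegree_mul_of_isDomain (X_ne_zero v) hr0, totalDegree_X]
      have hDr : r.totalDegree + 1 ≤ D := by omega
      have hf2 : ∀ A, D - 1 ≤ A.card → f A = 0 := by
        refine key_lemma (k := D - 1) (by omega) (fun A hA => hf A (by omega)) ?_
        intro A hA
        rw [← hf']
        exact lam_eq_zero (by omega)
      refine ⟨Xop v f, ?_, ?_⟩
      · intro A hA
        unfold Xop
        split_ifs with hv
        · rw [hf A hA, hf2 (A.erase v) ?_, add_zero]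
          rw [Finset.card_erase_of_mem hv]
          omega
        · rfl
      · rw [lam_X_mul, hf', Pop_Xop]

theorem knap_totalDegree (hn : 1 ≤ n) : (knap n).totalDegree = 1 := by
  apply le_antisymm
  · unfold knap
    refine le_trans (totalDegree_add _ _) ?_
    refine max_le ?_ ?_
    · simp
    · refine le_trans (totalDegree_finsetSum _ _) ?_
      refine Finset.sup_le fun i _ => ?_
      rw [totalDegree_X]
  · have hc : coeff (Finsupp.single (⟨0, hn⟩ : Fin n) 1) (knap n) = 1 := by
      unfold knap
      rw [coeff_add, coeff_sum]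
      have h1 : coeff (Finsupp.single (⟨0, hn⟩ : Fin n) 1)
          (1 : MvPolynomial (Fin n) ℚ) = 0 := by
        rw [coeff_one, if_neg]
        intro h
        have := DFunLike.congr_fun h (⟨0, hn⟩ : Fin n)
        simp at this
      rw [h1, zero_add]
      rw [Finset.sum_eq_single (⟨0, hn⟩ : Fin n)]
      · rw [coeff_X, if_pos rfl]
      · intro b _ hb
        rw [coeff_X, if_neg]
        intro h
        exact hb ((Finsupp.single_left_inj one_ne_zero).1 h)
      · intro h
        exact absurd (Finset.mem_univ _) h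
    have hm : (Finsupp.single (⟨0, hn⟩ : Fin n) 1) ∈ (knap n).support := by
      rw [mem_support_iff, hc]; exact one_ne_zero
    have := le_totalDegree hm
    simpa using this

/-- The degree lower bound of Impagliazzo, Pudlák and Sgall. -/
theorem degree_lower (hn : 1 ≤ n) {L : List (MvPolynomial (Fin n) ℚ)}
    (hL : IsPCRefutation {knap n} L) : n + 2 ≤ 2 * proofDegree L := by
  by_contra hcon
  have hD : 2 * proofDegree L < n + 2 := by omega
  have hK := knap_totalDegree hn
  have key : ∀ (i : ℕ) (h : i < L.length), Inv n (proofDegree L) L[i] := by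
    intro i
    induction i using Nat.strong_induction_on with
    | _ i ih =>
      intro h
      refine inv_of_justified hD (le_proofDegree (List.getElem_mem h)) ?_ hK (hL.2 i h)
      intro r hr
      obtain ⟨j, hj, rfl⟩ := List.getElem_of_mem hr
      rw [List.getElem_take]
      rw [List.length_take] at hj
      exact ih j (by omega) (by omega)
  have hlast := hL.1
  rw [List.getLast?_eq_getElem?] at hlast
  obtain ⟨hlt, h1⟩ := List.getElem?_eq_some_iff.1 hlast
  obtain ⟨f, hf, hf'⟩ := key _ hlt
  rw [h1, lam_one] at hf'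
  exact not_one hD hf hf'.symm

theorem one_mem (n : ℕ) : (1 : MvPolynomial (Fin n) ℚ) ∈
    boolIdeal ℚ (Fin n) ⊔ Ideal.span {knap n} := by
  rw [← Ideal.eq_top_iff_one]
  by_contra hJ
  obtain ⟨M, hM, hJM⟩ := Ideal.exists_le_maximal _ hJ
  let : Field (MvPolynomial (Fin n) ℚ ⧸ M) := Ideal.Quotient.field M
  have hx : ∀ i : Fin n, ∃ b : ℕ, Ideal.Quotient.mk M (X i) = (b : MvPolynomial (Fin n) ℚ ⧸ M) := by
    intro i
    have h1 : (X i ^ 2 - X i : MvPolynomial (Fin n) ℚ) ∈ M :=
      hJM (Ideal.mem_sup_left (Ideal.subset_span ⟨i, rfl⟩))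
    have h2 := Ideal.Quotient.eq_zero_iff_mem.2 h1
    rw [map_sub, map_pow] at h2
    have h3 : Ideal.Quotient.mk M (X i) * (Ideal.Quotient.mk M (X i) - 1) = 0 := by
      rw [← h2]; ring
    rcases mul_eq_zero.1 h3 with h4 | h4
    · exact ⟨0, by rw [h4]; simp⟩
    · exact ⟨1, by rw [sub_eq_zero.1 h4]; simp⟩
  choose b hb using hx
  have h1 : knap n ∈ M := hJM (Ideal.mem_sup_right (Ideal.subset_span rfl))
  have h2 := Ideal.Quotient.eq_zero_iff_mem.2 h1
  rw [knap, map_add, map_one, map_sum] at h2
  simp only [hb] at h2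
  have h3 : ((1 + ∑ i, b i : ℕ) : MvPolynomial (Fin n) ℚ ⧸ M) = 0 := by
    push_cast
    exact h2
  have : CharZero (MvPolynomial (Fin n) ℚ ⧸ M) :=
    charZero_of_injective_algebraMap (algebraMap ℚ (MvPolynomial (Fin n) ℚ ⧸ M)).injective
  have h4 := Nat.cast_eq_zero.1 h3
  omega

theorem knap_unsat (n : ℕ) : Unsat ({knap n} : Finset (MvPolynomial (Fin n) ℚ)) := by
  intro a ha
  refine ⟨knap n, Finset.mem_singleton_self _, ?_⟩
  unfold knap
  rw [map_add, map_one, map_sum]
  simp only [eval_X]
  have : 0 ≤ ∑ i, a i := by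
    refine Finset.sum_nonneg fun i _ => ?_
    rcases ha i with h | h <;> simp [h]
  positivity

/-- the two configurations -/
noncomputable def conf (n : ℕ) (i : ℕ) : Finset (MvPolynomial (Fin n) ℚ) :=
  if i = 0 then ∅ else {1}

theorem conf_refutation (n : ℕ) : IsSemanticRefutation {knap n} 1 (conf n) := by
  refine ⟨by simp [conf], by simp [conf], ?_⟩
  intro i hi
  have : i = 0 := by omega
  subst this
  refine ⟨knap n, Finset.mem_singleton_self _, ?_⟩
  intro q hq
  have hq1 : q = 1 := by simpa [conf] using hq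
  subst hq1
  have h := one_mem n
  rw [sup_assoc]
  exact Ideal.mem_sup_right h

theorem space_conf (n : ℕ) : space 1 (conf n) = 1 := by
  have h0 : MSp (conf n 0) = 0 := by simp [MSp, conf]
  have h1 : MSp (conf n 1) = 1 := by
    have : {m : Fin n →₀ ℕ | ∃ p ∈ conf n 1, coeff m p ≠ 0} = {0} := by
      ext m
      simp only [conf, one_ne_zero, if_false, Finset.mem_singleton, exists_eq_left,
        Set.mem_ofPred_eq, coeff_one, Set.mem_singleton_iff]
      constructor
      · intro h
        by_contra hm
        exact h (if_neg (Ne.symm hm))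
      · rintro rfl
        simp
    rw [MSp, this, Set.ncard_singleton]
  have hr : Finset.range (1 + 1) = {0, 1} := by decide
  rw [space, hr]
  simp [h0, h1]

end Red

/-- **Negative answer to Q1.**  For every `c > 0` there are a field (namely `ℚ`), an
unsatisfiable `P` and a semantic refutation of `P` whose monomial space is smaller than
`c * (D - d)`.  In fact the single linear polynomial `1 + x_1 + ... + x_n` over `ℚ` is
unsatisfiable, has a semantic refutation of monomial space `1`, has `d = 1`, and
`2 * D ≥ n + 2`. -/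
theorem result :
    (∀ n : ℕ, 1 ≤ n → ∃ D : ℕ,
      Unsat {knap n} ∧ IsSemanticRefutation {knap n} 1 (conf n) ∧ space 1 (conf n) = 1 ∧
        (({knap n} : Finset (MvPolynomial (Fin n) ℚ)).sup totalDegree = 1) ∧
        IsMinDegree {knap n} D ∧ n + 2 ≤ 2 * D) ∧
    (∀ c : ℝ, 0 < c → ∃ (n : ℕ) (P : Finset (MvPolynomial (Fin n) ℚ)) (ℓ : ℕ)
      (M : ℕ → Finset (MvPolynomial (Fin n) ℚ)) (D : ℕ),
      Unsat P ∧ IsSemanticRefutation P ℓ M ∧ IsMinDegree P D ∧
        (space ℓ M : ℝ) < c * ((D : ℝ) - ((P.sup totalDegree : ℕ) : ℝ))) := by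
  have main : ∀ n : ℕ, 1 ≤ n → ∃ D : ℕ,
      Unsat {knap n} ∧ IsSemanticRefutation {knap n} 1 (conf n) ∧ space 1 (conf n) = 1 ∧
        (({knap n} : Finset (MvPolynomial (Fin n) ℚ)).sup totalDegree = 1) ∧
        IsMinDegree {knap n} D ∧ n + 2 ≤ 2 * D := by
    intro n hn
    obtain ⟨D, hD⟩ := exists_minDegree
      (der_of_mem_ideal (P := {knap n}) (Finset.mem_singleton_self _) (one_mem n))
    refine ⟨D, knap_unsat n, conf_refutation n, space_conf n, ?_, hD, ?_⟩
    · rw [Finset.sup_singleton, knap_totalDegree hn]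
    · obtain ⟨L, hL, rfl⟩ := hD.1
      exact degree_lower hn hL
  refine ⟨main, ?_⟩
  intro c hc
  obtain ⟨m, hm⟩ := exists_nat_gt (2 / c)
  obtain ⟨D, h1, h2, h3, h4, h5, h6⟩ := main (m + 1) (by omega)
  refine ⟨m + 1, {knap (m + 1)}, 1, conf (m + 1), D, h1, h2, h5, ?_⟩
  rw [h3, h4]
  have h7 : ((m : ℝ) + 1 + 2) ≤ 2 * (D : ℝ) := by exact_mod_cast h6
  have h8 : 2 < c * (m : ℝ) := by
    rw [div_lt_iff₀ hc] at hm
    linarith
  push_cast
  nlinarith

end Pool.Agent.Results.MP_a6f615_lc.MonomialSpaceDegree
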